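import Pool.Agent.W716.FV.StmB

/-! # FV-CT: chains of a triangulation -/

set_option autoImplicit false

namespace Pool.Agent.W925.FV.CT

open MeasureTheory Pool.Agent.W716.FV Finset
open Pool.Agent.H241R3.FV (Sph Triang)

/-- the boundary of a list without repetitions -/
theorem dd_nodup {α : Type} [DecidableEq α] : ∀ (l : List α), l.Nodup →
    ∀ ω : List α → ZMod 2, dd ω l = ∑ v ∈ l.toFinset, ω (l.erase v)
  | [], _, ω => by simp [dd]
  | a :: t, h, ω => by
      rw [List.nodup_cons] at h
      rw [dd, dd_nodup t h.2, List.toFinset_cons, Finset.sum_insert (by simpa using h.1)]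
      congr 1
      · rw [List.erase_cons_head]
      · refine Finset.sum_congr rfl fun v hv => ?_
        rw [List.erase_cons_tail]
        intro hav
        have : a = v := by simpa using hav
        subst this
        exact h.1 (List.mem_toFinset.1 hv)

/-- the facets of a simplex -/
theorem sum_facets {V : Type} [DecidableEq V] (σ : Finset V) (m : ℕ) (hσ : σ.card = m + 1)
    (f : Finset V → ZMod 2) :
    ∑ v ∈ σ, f (σ.erase v) = ∑ F ∈ σ.powersetCard m, f F := by
  refine Finset.sum_bij (fun v _ => σ.erase v) ?_ ?_ ?_ ?_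
  · intro v hv
    rw [mem_powersetCard]
    exact ⟨erase_subset _ _, by rw [card_erase_of_mem hv, hσ]; rfl⟩
  · intro v hv w hw h
    exact Finset.erase_injOn σ hv hw h
  · intro F hF
    rw [mem_powersetCard] at hF
    obtain ⟨v, hv, hvF⟩ : ∃ v ∈ σ, v ∉ F := by
      by_contra hcon
      push Not at hcon
      have := card_le_card hcon
      omega
    refine ⟨v, hv, ?_⟩
    refine (eq_of_subset_of_card_le (fun w hw => ?_) ?_).symm
    · rw [mem_erase]
      exact ⟨fun h => hvF (h ▸ hw), hF.1 hw⟩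
    · rw [card_erase_of_mem hv, hσ, hF.2]
      simp
  · intro v _
    rfl

theorem main (hCA : ChainAlg) : ChainTri := by
  intro d M _ bd ε Tr
  classical
  haveI := Tr.fin
  let L : List Tr.V := (univ : Finset Tr.V).toList
  have hL : L.Nodup := nodup_toList _
  have hLm : ∀ v, v ∈ L := fun v => mem_toList.2 (mem_univ v)
  let ord : Finset Tr.V → List Tr.V := fun F => L.filter (fun v => v ∈ F)
  have hnd : ∀ F, (ord F).Nodup := fun F => hL.filter _
  have hmem : ∀ F v, v ∈ ord F ↔ v ∈ F := by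
    intro F v
    simp only [ord, List.mem_filter, decide_eq_true_eq]
    exact ⟨fun h => h.2, fun h => ⟨hLm v, h⟩⟩
  have htf : ∀ F, (ord F).toFinset = F := by
    intro F
    ext v
    rw [List.mem_toFinset, hmem]
  have her : ∀ F v, (ord F).erase v = ord (F.erase v) := by
    intro F v
    rw [(hnd F).erase_eq_filter]
    simp only [ord, List.filter_filter]
    refine List.filter_congr fun w _ => ?_
    by_cases h1 : w = v
    · simp [h1]
    · simp [h1]
  have hdd : ∀ (ω : List Tr.V → ZMod 2) (F : Finset Tr.V),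
      dd ω (ord F) = ∑ v ∈ F, ω (ord (F.erase v)) := by
    intro ω F
    rw [dd_nodup _ (hnd F), htf]
    exact sum_congr rfl fun v _ => by rw [her]
  have key : ∀ ω : List Tr.V → ZMod 2, ∑ σ ∈ Tr.T, dd ω (ord σ) = ∑ F ∈ Tr.B, ω (ord F) := by
    intro ω
    set G : Finset (Finset Tr.V) := univ.filter (fun F => F.card = d + 1 ∧ ∃ σ ∈ Tr.T, F ⊆ σ)
      with hG
    have h1 : ∀ σ ∈ Tr.T, dd ω (ord σ) = ∑ F ∈ G, if F ⊆ σ then ω (ord F) else 0 := by
      intro σ hσ
      rw [hdd, sum_facets σ (d + 1) (Tr.card_T σ hσ) (fun F => ω (ord F)), ← sum_filter]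
      refine sum_congr ?_ fun _ _ => rfl
      ext F
      rw [mem_powersetCard, mem_filter, hG, mem_filter]
      constructor
      · rintro ⟨h, h'⟩
        exact ⟨⟨mem_univ _, h', σ, hσ, h⟩, h⟩
      · rintro ⟨⟨_, h', _⟩, h⟩
        exact ⟨h, h'⟩
    rw [sum_congr rfl h1, sum_comm]
    have h2 : ∀ F ∈ G, ∑ σ ∈ Tr.T, (if F ⊆ σ then ω (ord F) else 0) =
        if F ∈ Tr.B then ω (ord F) else 0 := by
      intro F hF
      rw [hG, mem_filter] at hF
      rw [← sum_filter, sum_const]
      have h3 : {σ | σ ∈ Tr.T ∧ F ⊆ σ} = ((Tr.T.filter (fun σ => F ⊆ σ) : Finset _) :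
          Set (Finset Tr.V)) := by
        ext σ
        simp
      rcases Tr.face F hF.2.1 hF.2.2 with ⟨h4, h5⟩ | ⟨h4, h5⟩
      · rw [h3, Set.ncard_coe_finset] at h4
        rw [if_neg h5, h4, two_nsmul, CharTwo.add_self_eq_zero]
      · rw [h3, Set.ncard_coe_finset] at h4
        rw [if_pos h5, h4, one_nsmul]
    rw [sum_congr rfl h2, ← sum_filter]
    refine sum_congr ?_ fun _ _ => rfl
    ext F
    rw [mem_filter, hG, mem_filter]
    constructor
    · exact fun h => h.2
    · exact fun h => ⟨⟨mem_univ _, Tr.B_sub F h⟩, h⟩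
  refine ⟨ord, fun F => ⟨hnd F, hmem F⟩, key, fun ω => ?_⟩
  rw [← key (dd ω)]
  exact sum_eq_zero fun σ _ => hCA.2.1 _ _ _

end Pool.Agent.W925.FV.CT
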