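import Mathlib
import Pool.Agent.W716.FV.StmB
import Pool.Agent.H241R3.FV.TEven

/-!
# FV-EL: parity for one simplex
-/

set_option autoImplicit false

namespace Pool.Agent.W925.FV.EL

open Pool.Agent.W716.FV

theorem dd_eq_sum {α : Type} : ∀ (l : List α) (ω : List α → ZMod 2),
    dd ω l = ∑ i : Fin l.length, ω (l.eraseIdx i)
  | [], ω => by simp [dd]
  | v :: t, ω => by
      rw [dd, dd_eq_sum t]
      simp only [List.length_cons]
      rw [Fin.sum_univ_succ]
      simp

theorem mem_hull_iff {W V : Type} [AddCommGroup W] [Module ℝ W] [AddCommGroup V] [Module ℝ V]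
    (e : W ≃ₗ[ℝ] V) (S : Set W) (y : W) :
    e y ∈ convexHull ℝ (e '' S) ↔ y ∈ convexHull ℝ S := by
  have h : (e : W →ₗ[ℝ] V) '' (convexHull ℝ S) = convexHull ℝ ((e : W →ₗ[ℝ] V) '' S) :=
    LinearMap.image_convexHull (e : W →ₗ[ℝ] V) S
  have h2 : e '' (convexHull ℝ S) = convexHull ℝ (e '' S) := h
  rw [← h2]
  constructor
  · rintro ⟨x, hx, hxy⟩
    rwa [← e.injective hxy]
  · intro h
    exact ⟨y, h, rfl⟩

theorem main : EvenList := by
  classical
  intro W _ _ _ α p z y l hnd hlen hgen
  let e : W ≃ₗ[ℝ] E (Module.finrank ℝ W) :=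
    (toEuclidean : W ≃L[ℝ] EuclideanSpace ℝ (Fin (Module.finrank ℝ W))).toLinearEquiv
  let q : Option (Fin l.length) → E (Module.finrank ℝ W) :=
    fun o => e (o.elim z (fun i => p (l.get i)))
  have hcard : Fintype.card (Option (Fin l.length)) = Module.finrank ℝ W + 2 := by
    simp [hlen]
  have hq : ∀ S : Set (Option (Fin l.length)),
      q '' S = e '' ((fun o : Option (Fin l.length) => o.elim z (fun i => p (l.get i))) '' S) := by
    intro S
    rw [Set.image_image]
  have hev := Pool.Agent.H241R3.FV.TEven.taskEven (Module.finrank ℝ W) (Option (Fin l.length))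
    hcard q (e y) (by
      intro s hs
      rw [hq, mem_hull_iff]
      have h := hgen (s.image (Option.map l.get)) (Finset.card_image_le.trans hs)
      intro hmem
      apply h
      rw [Finset.coe_image, Set.image_image]
      have hfun : (fun o : Option (Fin l.length) =>
          (Option.map l.get o).elim z p) = fun o => o.elim z (fun i => p (l.get i)) := by
        funext o
        cases o <;> simp
      rw [hfun]
      exact hmem)
  have hnone : (e y ∈ convexHull ℝ (q '' {none}ᶜ)) ↔ y ∈ convexHull ℝ (p '' {v | v ∈ l}) := by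
    rw [hq, mem_hull_iff]
    have : ((fun o : Option (Fin l.length) => o.elim z (fun i => p (l.get i))) '' {none}ᶜ) =
        p '' {v | v ∈ l} := by
      ext w
      constructor
      · rintro ⟨o, ho, rfl⟩
        cases o with
        | none => exact absurd rfl ho
        | some i => exact ⟨l.get i, List.get_mem l i, rfl⟩
      · rintro ⟨v, hv, rfl⟩
        obtain ⟨i, hi⟩ := List.get_of_mem hv
        exact ⟨some i, by simp, by simp only [Option.elim]; rw [hi]⟩
    rw [this]
  have hsome : ∀ j : Fin l.length, (e y ∈ convexHull ℝ (q '' {some j}ᶜ)) ↔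
      y ∈ convexHull ℝ (insert z (p '' {v | v ∈ l.eraseIdx j})) := by
    intro j
    rw [hq, mem_hull_iff]
    have : ((fun o : Option (Fin l.length) => o.elim z (fun i => p (l.get i))) '' {some j}ᶜ) =
        insert z (p '' {v | v ∈ l.eraseIdx j}) := by
      ext w
      constructor
      · rintro ⟨o, ho, rfl⟩
        cases o with
        | none => exact Set.mem_insert _ _
        | some i =>
          refine Set.mem_insert_of_mem _ ⟨l.get i, ?_, rfl⟩
          rw [Set.mem_ofPred_eq, List.mem_eraseIdx_iff_getElem]
          refine ⟨i, i.2, ?_, by simp⟩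
          intro h
          apply ho
          rw [Set.mem_singleton_iff]
          congr 1
          exact Fin.ext h
      · rintro (rfl | ⟨v, hv, rfl⟩)
        · exact ⟨none, by simp, rfl⟩
        · rw [Set.mem_ofPred_eq, List.mem_eraseIdx_iff_getElem] at hv
          obtain ⟨i, hi, hij, hv⟩ := hv
          refine ⟨some ⟨i, hi⟩, ?_, ?_⟩
          · intro h
            rw [Set.mem_singleton_iff] at h
            apply hij
            have := Option.some.inj h
            rw [← this]
          · simp only [Option.elim]
            rw [← hv]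
            rfl
    rw [this]
  have hsum : (({i : Option (Fin l.length) | e y ∈ convexHull ℝ (q '' {i}ᶜ)}.ncard : ℕ) : ZMod 2) =
      hl p y l + dd (hz z p y) l := by
    rw [Set.ncard_eq_toFinset_card', Set.toFinset_ofPred, Finset.card_filter, Nat.cast_sum,
      Fintype.sum_option, dd_eq_sum]
    congr 1
    · unfold hl
      simp only [hnone]
      split_ifs <;> simp
    · refine Finset.sum_congr rfl fun j _ => ?_
      unfold hz
      simp only [hsome]
      split_ifs <;> simp
  have h0 : hl p y l + dd (hz z p y) l = 0 := by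
    rw [← hsum]
    exact (ZMod.natCast_eq_zero_iff_even).2 hev
  have := add_eq_zero_iff_eq_neg.1 h0
  rw [this]
  exact ZMod.neg_eq_self_mod_two _

end Pool.Agent.W925.FV.EL
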