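import Pool.Agent.W716.FV.StmA

/-! # FV-IN: injectivity of `T` on the set `S ≤ 27/200` -/

set_option autoImplicit false

namespace Pool.Agent.W925.FV.IN

open MeasureTheory Pool.Agent.W716.FV

section

variable {n : ℕ}

/-- the inner integral -/
noncomputable def YY (V : E n → E n) (η : E n) (k : ℝ) : ℝ :=
  ∫ x, ‖V (x + k • η) - η‖ ^ 2 ∂(gam n)

theorem YY_nonneg (V : E n → E n) (η : E n) (k : ℝ) : 0 ≤ YY V η k :=
  integral_nonneg fun _ => by positivity

theorem meas_xi (η : E n) : Measurable (fun w : E n × ℝ => xi η w) := by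
  change Measurable (fun w : E n × ℝ => w.1 + w.2 • η)
  fun_prop

end

theorem main (hKM : KappaMoments) (hPM : PMoments) (hGF : GoodFacts) (hXI : XIdent)
    (hOV : Overlap) (hKN : KappaNum) : Inject := by
  intro n R u hR hu η₁ η₂ hS₁ hS₂ hT
  obtain ⟨pnu, -, -, -, hkabs, hk6⟩ := hKM
  obtain ⟨pP, hPint, -⟩ := hPM n
  obtain ⟨hV, -, hVm, -, -, -⟩ := hGF n R u hR hu
  haveI := pnu
  haveI := pP
  haveI : SFinite (gam n) := by
    unfold gam
    infer_instance
  set V : E n → E n := gr u with hVdef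
  -- integrability on the product
  have hf : ∀ η : E n, Integrable (fun w : E n × ℝ => (1 + w.2 ^ 2) * ‖V (xi η w) - η‖ ^ 2)
      (P n) := by
    intro η
    obtain ⟨h1, h2, -⟩ := hXI n R u hR hu η
    refine h2.mono' ?_ (Filter.Eventually.of_forall fun w => ?_)
    · refine Measurable.aestronglyMeasurable ?_
      have h3 : Measurable (fun w : E n × ℝ => V (xi η w)) := hVm.comp (meas_xi η)
      exact Measurable.mul (by fun_prop) (((h3.sub_const η).norm).pow_const 2)
    · rw [Real.norm_of_nonneg (by positivity)]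
      exact mul_le_mul_of_nonneg_left (h1 w) (by positivity)
  have hJi : ∀ η : E n, Integrable (fun k : ℝ => (1 + k ^ 2) * YY V η k) nu := by
    intro η
    have h1 := (hf η).integral_prod_right
    refine h1.congr (Filter.Eventually.of_forall fun k => ?_)
    change ∫ x, (1 + k ^ 2) * ‖V (xi η (x, k)) - η‖ ^ 2 ∂(gam n) = _
    rw [integral_const_mul]
    rfl
  have hJ : ∀ η : E n, ∫ k, (1 + k ^ 2) * YY V η k ∂nu ≤ 8 * SS R u η := by
    intro η
    obtain ⟨h1, h2, -, -, h5⟩ := hXI n R u hR hu η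
    rw [← h5]
    have h6 : ∫ w, (1 + w.2 ^ 2) * ‖V (xi η w) - η‖ ^ 2 ∂(P n) =
        ∫ k, (1 + k ^ 2) * YY V η k ∂nu := by
      unfold P
      rw [integral_prod_symm _ (hf η)]
      refine integral_congr_ae (Filter.Eventually.of_forall fun k => ?_)
      change ∫ x, (1 + k ^ 2) * ‖V (xi η (x, k)) - η‖ ^ 2 ∂(gam n) = _
      rw [integral_const_mul]
      rfl
    rw [← h6]
    exact integral_mono (hf η) h2 fun w => mul_le_mul_of_nonneg_left (h1 w) (by positivity)
  have hJ1 : ∫ k, (1 + k ^ 2) * YY V η₁ k ∂nu ≤ 108 / 100 := (hJ η₁).trans (by linarith)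
  have hJ2 : ∫ k, (1 + k ^ 2) * YY V η₂ k ∂nu ≤ 108 / 100 := (hJ η₂).trans (by linarith)
  set a : ℝ := ‖η₂ - η₁‖ with ha
  have ha0 : 0 ≤ a := norm_nonneg _
  have hc : ∀ k : ℝ, ‖k • η₂ - k • η₁‖ = |k| * a := by
    intro k
    rw [← smul_sub, norm_smul, Real.norm_eq_abs]
  -- step 1
  have hstep1 : a < 13 / 5 := by
    by_contra hcon
    push Not at hcon
    have h1 := hKN a hcon
    have h2 : ∀ k : ℝ, a ^ 2 * ((1 + k ^ 2) * Real.exp (-(k ^ 2 * a ^ 2 / 4))) ≤
        2 * ((1 + k ^ 2) * YY V η₁ k) + 2 * ((1 + k ^ 2) * YY V η₂ k) := by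
      intro k
      have h3 := (hOV n V R hVm hV (k • η₁) (k • η₂) η₁ η₂).1
      rw [hc k] at h3
      have h4 : a * Real.exp (-(|k| * a) ^ 2 / 8) ≤ √(YY V η₁ k) + √(YY V η₂ k) := h3
      have h5 : (a * Real.exp (-(|k| * a) ^ 2 / 8)) ^ 2 ≤ (√(YY V η₁ k) + √(YY V η₂ k)) ^ 2 :=
        pow_le_pow_left₀ (by positivity) h4 2
      have h6 : (a * Real.exp (-(|k| * a) ^ 2 / 8)) ^ 2 =
          a ^ 2 * Real.exp (-(k ^ 2 * a ^ 2 / 4)) := by
        rw [mul_pow, ← Real.exp_nat_mul]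
        congr 2
        rw [mul_pow, sq_abs]
        push_cast
        ring
      have h7 : (√(YY V η₁ k) + √(YY V η₂ k)) ^ 2 ≤ 2 * YY V η₁ k + 2 * YY V η₂ k := by
        have e1 := Real.sq_sqrt (YY_nonneg V η₁ k)
        have e2 := Real.sq_sqrt (YY_nonneg V η₂ k)
        nlinarith [sq_nonneg (√(YY V η₁ k) - √(YY V η₂ k))]
      rw [h6] at h5
      have h8 : a ^ 2 * Real.exp (-(k ^ 2 * a ^ 2 / 4)) ≤ 2 * YY V η₁ k + 2 * YY V η₂ k :=
        h5.trans h7
      have h9 : (0 : ℝ) ≤ 1 + k ^ 2 := by positivity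
      calc a ^ 2 * ((1 + k ^ 2) * Real.exp (-(k ^ 2 * a ^ 2 / 4)))
          = (1 + k ^ 2) * (a ^ 2 * Real.exp (-(k ^ 2 * a ^ 2 / 4))) := by ring
        _ ≤ (1 + k ^ 2) * (2 * YY V η₁ k + 2 * YY V η₂ k) := mul_le_mul_of_nonneg_left h8 h9
        _ = _ := by ring
    have h3 : a ^ 2 * ∫ k, (1 + k ^ 2) * Real.exp (-(k ^ 2 * a ^ 2 / 4)) ∂nu ≤
        2 * (∫ k, (1 + k ^ 2) * YY V η₁ k ∂nu) + 2 * ∫ k, (1 + k ^ 2) * YY V η₂ k ∂nu := by
      rw [← integral_const_mul, ← integral_const_mul, ← integral_const_mul,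
        ← integral_add ((hJi η₁).const_mul 2) ((hJi η₂).const_mul 2)]
      refine integral_mono_of_nonneg (Filter.Eventually.of_forall fun k => ?_)
        (((hJi η₁).const_mul 2).add ((hJi η₂).const_mul 2))
        (Filter.Eventually.of_forall h2)
      change (0 : ℝ) ≤ a ^ 2 * ((1 + k ^ 2) * Real.exp (-(k ^ 2 * a ^ 2 / 4)))
      positivity
    linarith
  -- step 2
  by_contra hne
  have hapos : 0 < a := by
    rw [ha, norm_pos_iff, sub_ne_zero]
    exact fun h => hne h.symm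
  have hVi : ∀ η : E n, Integrable (fun w : E n × ℝ => V (xi η w)) (P n) := by
    intro η
    refine Integrable.of_bound (hVm.comp (meas_xi η)).aestronglyMeasurable R
      (Filter.Eventually.of_forall fun w => hV _)
  have hW : ∀ η : E n, ∫ w, V (xi η w) ∂(P n) = ∫ k, ∫ x, V (x + k • η) ∂(gam n) ∂nu := by
    intro η
    have h1 := hVi η
    unfold P at h1 ⊢
    rw [integral_prod_symm _ h1]
    rfl
  have hWi : ∀ η : E n, Integrable (fun k : ℝ => ∫ x, V (x + k • η) ∂(gam n)) nu := by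
    intro η
    exact (hVi η).integral_prod_right
  have hdiff : η₂ - η₁ = ∫ k, ((∫ x, V (x + k • η₂) ∂(gam n)) - ∫ x, V (x + k • η₁) ∂(gam n))
      ∂nu := by
    rw [integral_sub (hWi η₂) (hWi η₁), ← hW, ← hW, (hXI n R u hR hu η₂).2.2.1,
      (hXI n R u hR hu η₁).2.2.1, hT]
    abel
  have hYm : ∀ η : E n, AEStronglyMeasurable (fun k : ℝ => √(YY V η k)) nu := by
    intro η
    have h1 : AEStronglyMeasurable (fun k : ℝ => (1 + k ^ 2)⁻¹ * ((1 + k ^ 2) * YY V η k)) nu := by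
      refine AEStronglyMeasurable.mul ?_ (hJi η).aestronglyMeasurable
      exact (Measurable.aestronglyMeasurable (by fun_prop))
    have h2 : (fun k : ℝ => (1 + k ^ 2)⁻¹ * ((1 + k ^ 2) * YY V η k)) = fun k => YY V η k := by
      funext k
      have : (1 + k ^ 2 : ℝ) ≠ 0 := by positivity
      field_simp
    rw [h2] at h1
    exact Real.continuous_sqrt.comp_aestronglyMeasurable h1
  have hk6i : Integrable (fun k : ℝ => k ^ 2 / (1 + k ^ 2)) nu := by
    by_contra hni
    rw [integral_undef hni] at hk6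
    norm_num at hk6
  have hkai : Integrable (fun k : ℝ => |k|) nu := by
    by_contra hni
    rw [integral_undef hni] at hkabs
    have : (0 : ℝ) < 4 / (3 * Real.pi) := by positivity
    linarith
  -- pointwise bound by Young's inequality
  have hyoung : ∀ (η : E n) (k : ℝ), |k| * √(YY V η k) ≤
      14 / 11 * (k ^ 2 / (1 + k ^ 2)) + 11 / 56 * ((1 + k ^ 2) * YY V η k) := by
    intro η k
    have e1 := Real.sq_sqrt (YY_nonneg V η k)
    set y := √(YY V η k) with hy
    have hD : (0 : ℝ) < 1 + k ^ 2 := by positivity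
    rw [← e1]
    have h1 : 14 / 11 * (k ^ 2 / (1 + k ^ 2)) + 11 / 56 * ((1 + k ^ 2) * y ^ 2) - |k| * y =
        11 / 56 * (28 / 11 * |k| - (1 + k ^ 2) * y) ^ 2 / (1 + k ^ 2) := by
      have h2 : k ^ 2 = |k| ^ 2 := (sq_abs k).symm
      field_simp
      rw [h2]
      ring
    have h3 : 0 ≤ 11 / 56 * (28 / 11 * |k| - (1 + k ^ 2) * y) ^ 2 / (1 + k ^ 2) := by positivity
    linarith
  have hbi : ∀ η : E n, Integrable (fun k : ℝ =>
      14 / 11 * (k ^ 2 / (1 + k ^ 2)) + 11 / 56 * ((1 + k ^ 2) * YY V η k)) nu := fun η =>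
    (hk6i.const_mul _).add ((hJi η).const_mul _)
  have hyi : ∀ η : E n, Integrable (fun k : ℝ => |k| * √(YY V η k)) nu := by
    intro η
    refine (hbi η).mono' ((continuous_abs.measurable.aestronglyMeasurable).mul (hYm η))
      (Filter.Eventually.of_forall fun k => ?_)
    rw [Real.norm_of_nonneg (by positivity)]
    exact hyoung η k
  have hyb : ∀ η : E n, (∫ k, (1 + k ^ 2) * YY V η k ∂nu ≤ 108 / 100) →
      ∫ k, |k| * √(YY V η k) ∂nu ≤ 4243 / 10000 := by
    intro η hη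
    refine (integral_mono (hyi η) (hbi η) (hyoung η)).trans ?_
    rw [integral_add (hk6i.const_mul _) ((hJi η).const_mul _), integral_const_mul,
      integral_const_mul, hk6]
    linarith
  have hy1 := hyb η₁ hJ1
  have hy2 := hyb η₂ hJ2
  have hpi : ∫ k, |k| ∂nu ≤ 4245 / 10000 := by
    rw [hkabs, div_le_iff₀ (by positivity)]
    have := Real.pi_gt_d4
    nlinarith
  have hmain : a ≤ a / 2 * ((∫ k, |k| * √(YY V η₁ k) ∂nu) + (∫ k, |k| * √(YY V η₂ k) ∂nu) +
      a * ∫ k, |k| ∂nu) := by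
    have h1 : a ≤ ∫ k, a / 2 * (|k| * √(YY V η₁ k) + |k| * √(YY V η₂ k) + a * |k|) ∂nu := by
      calc a = ‖∫ k, ((∫ x, V (x + k • η₂) ∂(gam n)) - ∫ x, V (x + k • η₁) ∂(gam n)) ∂nu‖ := by
            rw [← hdiff]
        _ ≤ ∫ k, ‖(∫ x, V (x + k • η₂) ∂(gam n)) - ∫ x, V (x + k • η₁) ∂(gam n)‖ ∂nu :=
            norm_integral_le_integral_norm _
        _ ≤ _ := by
            refine integral_mono_of_nonneg (Filter.Eventually.of_forall fun k => norm_nonneg _)
              ((((hyi η₁).add (hyi η₂)).add (hkai.const_mul a)).const_mul (a / 2))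
              (Filter.Eventually.of_forall fun k => ?_)
            have h3 := (hOV n V R hVm hV (k • η₁) (k • η₂) η₁ η₂).2
            rw [hc k] at h3
            refine h3.trans (le_of_eq ?_)
            change |k| * a / 2 * (√(YY V η₁ k) + √(YY V η₂ k) + a) = _
            ring
    have e1 : ∫ k, (|k| * √(YY V η₁ k) + |k| * √(YY V η₂ k) + a * |k|) ∂nu =
        (∫ k, |k| * √(YY V η₁ k) ∂nu) + (∫ k, |k| * √(YY V η₂ k) ∂nu) + a * ∫ k, |k| ∂nu := by
      rw [integral_add (f := fun k => |k| * √(YY V η₁ k) + |k| * √(YY V η₂ k))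
        (g := fun k => a * |k|) ((hyi η₁).add (hyi η₂)) (hkai.const_mul a),
        integral_add (hyi η₁) (hyi η₂), integral_const_mul]
    rw [integral_const_mul, e1] at h1
    exact h1
  have hfin : 1 ≤ 1 / 2 * ((∫ k, |k| * √(YY V η₁ k) ∂nu) + (∫ k, |k| * √(YY V η₂ k) ∂nu) +
      a * ∫ k, |k| ∂nu) := by
    by_contra hcon
    push Not at hcon
    have := mul_lt_mul_of_pos_left hcon hapos
    linarith
  have h5 : a * ∫ k, |k| ∂nu ≤ 13 / 5 * (4245 / 10000) := by
    have h6 : 0 ≤ ∫ k, |k| ∂nu := integral_nonneg fun k => abs_nonneg k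
    exact mul_le_mul hstep1.le hpi h6 (by norm_num)
  linarith

end Pool.Agent.W925.FV.IN
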